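import Mathlib

/-!
# The natural recipe does not give a projectional generator

Let `X = ℝ²`, `v = (1, 0)`. The index set consists of a top element, with the identity as its
projection, and of the functionals `f` with `f v ≠ 0`, pairwise incomparable, with the projections
`x ↦ (f x / f v) v`. This is a projectional skeleton which induces `X*`. For `f v ≠ 0` take the
index `f` and for `Φ f` the rational multiples of `v`. The set `A = {f : f v ≠ 0}` is dense, but
`Φ(A)` is annihilated by the second coordinate functional.
-/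

set_option autoImplicit false

open Set Topology

namespace Pool.Agent.Results.MP_2163b8_an.NotGenerator

section defs

variable {X : Type*} [NormedAddCommGroup X] [NormedSpace ℝ X]

/-- A projectional skeleton on `X` indexed by the partially ordered set `Γ`. -/
structure ProjSkeleton (X : Type*) [NormedAddCommGroup X] [NormedSpace ℝ X] (Γ : Type*)
    [PartialOrder Γ] where
  /-- The projections. -/
  P : Γ → X →L[ℝ] X
  idem : ∀ s x, P s (P s x) = P s x
  directed : ∀ s t : Γ, ∃ u, s ≤ u ∧ t ≤ u
  separable : ∀ s, TopologicalSpace.IsSeparable (range (P s))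
  comp_left : ∀ s t, s ≤ t → ∀ x, P s (P t x) = P s x
  comp_right : ∀ s t, s ≤ t → ∀ x, P t (P s x) = P s x
  sup : ∀ s : ℕ → Γ, Monotone s → ∃ t, IsLUB (range s) t ∧
    range (P t) = closure (⋃ n, range (P (s n)))
  cover : ⋃ s, range (P s) = univ

/-- The subset of the dual induced by a skeleton: the union of the ranges of the adjoints. -/
def ProjSkeleton.induced {Γ : Type*} [PartialOrder Γ] (S : ProjSkeleton X Γ) :
    Set (StrongDual ℝ X) :=
  {f | ∃ (s : Γ) (g : StrongDual ℝ X), f = g.comp (S.P s)}

/-- The subspace `D` of the dual is norming: `x ↦ sup {|f x| : f ∈ D, ‖f‖ ≤ 1}` is a norm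
equivalent to the original one. -/
def IsNorming (D : Submodule ℝ (StrongDual ℝ X)) : Prop :=
  ∃ c : ℝ, 0 < c ∧ ∀ x : X, c * ‖x‖ ≤ sSup {r : ℝ | ∃ f ∈ D, ‖f‖ ≤ 1 ∧ r = |f x|}

/-- The weak* closure of a set of functionals. -/
def weakStarClosure (A : Set (StrongDual ℝ X)) : Set (StrongDual ℝ X) :=
  {f | StrongDual.toWeakDual f ∈ closure (StrongDual.toWeakDual '' A)}

/-- `(D, Φ)` is a projectional generator. -/
def IsProjectionalGenerator (D : Submodule ℝ (StrongDual ℝ X)) (Φ : StrongDual ℝ X → Set X) :
    Prop :=
  IsNorming D ∧ (∀ f ∈ D, (Φ f).Countable) ∧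
    ∀ A : Set (StrongDual ℝ X), A ⊆ D →
      (∃ W : Submodule ℝ (StrongDual ℝ X), (W : Set (StrongDual ℝ X)) = closure A) →
      ∀ g : StrongDual ℝ X, (∀ f ∈ A, ∀ x ∈ Φ f, g x = 0) → g ∈ weakStarClosure A → g = 0

/-- `s` and `Φ` are chosen by the recipe of Q2. -/
def IsRecipe {Γ : Type*} [PartialOrder Γ] (S : ProjSkeleton X Γ) (s : StrongDual ℝ X → Γ)
    (Φ : StrongDual ℝ X → Set X) : Prop :=
  ∀ f ∈ S.induced, f.comp (S.P (s f)) = f ∧ (Φ f).Countable ∧ Φ f ⊆ range (S.P (s f)) ∧
    range (S.P (s f)) ⊆ closure (Φ f)

end defs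

/-- The plane. -/
abbrev V : Type := ℝ × ℝ

/-- The first basis vector. -/
def v : V := (1, 0)

/-- The functionals that do not vanish at `v`. -/
def A : Set (StrongDual ℝ V) := {f | f v ≠ 0}

/-- The index set: a top element `none` and pairwise incomparable elements `some f`. -/
def Γ : Type := Option A

instance : PartialOrder Γ where
  le a b := a = b ∨ b = none
  le_refl a := Or.inl rfl
  le_trans a b c := by
    rintro (rfl | rfl) (rfl | rfl)
    · exact Or.inl rfl
    · exact Or.inr rfl
    · exact Or.inr rfl
    · exact Or.inr rfl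
  le_antisymm a b := by
    rintro (rfl | rfl) (h | h)
    · rfl
    · rfl
    · exact h.symm
    · exact h

theorem le_iff (a b : Γ) : a ≤ b ↔ a = b ∨ b = none := Iff.rfl

/-- The projections. -/
noncomputable def P : Γ → V →L[ℝ] V
  | none => ContinuousLinearMap.id ℝ V
  | some f => (f.1 v)⁻¹ • f.1.smulRight v

theorem P_none (x : V) : P none x = x := rfl

theorem P_some (f : A) (x : V) : P (some f) x = ((f.1 v)⁻¹ * f.1 x) • v := by
  simp [P, smul_smul]

theorem P_idem (s : Γ) (x : V) : P s (P s x) = P s x := by
  rcases s with _ | f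
  · rfl
  · have hf : f.1 v ≠ 0 := f.2
    rw [P_some, P_some, map_smul, smul_eq_mul]
    congr 1
    field_simp

theorem range_some (f : A) : range (P (some f)) = (Submodule.span ℝ {v} : Set V) := by
  ext x
  simp only [mem_range, SetLike.mem_coe, Submodule.mem_span_singleton]
  constructor
  · rintro ⟨y, rfl⟩
    exact ⟨_, (P_some f y).symm⟩
  · rintro ⟨c, rfl⟩
    refine ⟨c • v, ?_⟩
    have hf : f.1 v ≠ 0 := f.2
    rw [P_some, map_smul, smul_eq_mul]
    congr 1
    field_simp

theorem range_closed (s : Γ) : closure (range (P s)) = range (P s) := by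
  rcases s with _ | f
  · have : range (P none) = univ := range_eq_univ.mpr fun x => ⟨x, rfl⟩
    rw [this, closure_univ]
  · rw [range_some]
    exact (Submodule.closed_of_finiteDimensional _).closure_eq

/-- The skeleton. -/
noncomputable def S : ProjSkeleton V Γ where
  P := P
  idem := P_idem
  directed s t := ⟨none, Or.inr rfl, Or.inr rfl⟩
  separable s := TopologicalSpace.IsSeparable.of_separableSpace _
  comp_left s t h x := by
    rcases h with rfl | rfl
    · exact P_idem s x
    · rfl
  comp_right s t h x := by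
    rcases h with rfl | rfl
    · exact P_idem s x
    · rfl
  sup s hs := by
    by_cases h : ∃ n, s n = none
    · obtain ⟨n, hn⟩ := h
      refine ⟨none, ⟨?_, fun b hb => ?_⟩, ?_⟩
      · rintro _ ⟨m, rfl⟩
        exact Or.inr rfl
      · have := hb (mem_range_self n)
        rwa [hn] at this
      · have h1 : range (P none) = univ := range_eq_univ.mpr fun x => ⟨x, rfl⟩
        rw [h1]
        refine (univ_subset_iff.mp ?_).symm
        calc (univ : Set V) = range (P (s n)) := by rw [hn, h1]
          _ ⊆ ⋃ n, range (P (s n)) := subset_iUnion (fun n => range (P (s n))) n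
          _ ⊆ _ := subset_closure
    · push Not at h
      have h0 : ∀ n, s n = s 0 := fun n => by
        rcases hs (Nat.zero_le n) with h1 | h1
        · exact h1.symm
        · exact absurd h1 (h n)
      refine ⟨s 0, ⟨?_, fun b hb => hb (mem_range_self 0)⟩, ?_⟩
      · rintro _ ⟨m, rfl⟩
        exact le_of_eq (h0 m)
      · have h1 : (⋃ n, range (P (s n))) = range (P (s 0)) := by
          simp only [h0, iUnion_const]
        rw [h1, range_closed]
  cover := by
    refine univ_subset_iff.mp fun x _ => mem_iUnion.mpr ⟨none, x, rfl⟩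

theorem induced_eq : S.induced = univ :=
  univ_subset_iff.mp fun f _ => ⟨none, f, rfl⟩

open Classical in
/-- The choice of the indices. -/
noncomputable def idx (f : StrongDual ℝ V) : Γ := if h : f ∈ A then some ⟨f, h⟩ else none

open Classical in
/-- The choice of the countable sets. -/
noncomputable def Φ (f : StrongDual ℝ V) : Set V :=
  if f ∈ A then range fun q : ℚ => (q : ℝ) • v
  else TopologicalSpace.denseSeq V '' univ

theorem recipe : IsRecipe S idx Φ := by
  intro f _
  by_cases hf : f ∈ A
  · have h1 : idx f = some ⟨f, hf⟩ := dif_pos hf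
    have h2 : Φ f = range fun q : ℚ => (q : ℝ) • v := by rw [Φ, if_pos hf]
    have h3 : S.P (idx f) = P (some ⟨f, hf⟩) := by rw [h1]; rfl
    rw [h2, h3]
    refine ⟨?_, countable_range _, ?_, ?_⟩
    · refine ContinuousLinearMap.ext fun x => ?_
      have hf' : f v ≠ 0 := hf
      rw [ContinuousLinearMap.comp_apply, P_some, map_smul, smul_eq_mul]
      field_simp
    · rw [range_some]
      rintro _ ⟨q, rfl⟩
      exact Submodule.smul_mem _ _ (Submodule.mem_span_singleton_self v)
    · rw [range_some]
      intro x hx
      obtain ⟨c, rfl⟩ := Submodule.mem_span_singleton.mp hx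
      have hcont : Continuous fun r : ℝ => r • v := by fun_prop
      have h4 : c ∈ closure (range ((↑) : ℚ → ℝ)) := Rat.denseRange_cast c
      have h5 := image_closure_subset_closure_image hcont (mem_image_of_mem _ h4)
      rwa [← range_comp] at h5
  · have h1 : idx f = none := dif_neg hf
    have h2 : Φ f = TopologicalSpace.denseSeq V '' univ := by rw [Φ, if_neg hf]
    have h3 : S.P (idx f) = P none := by rw [h1]; rfl
    rw [h2, h3]
    refine ⟨rfl, (countable_univ.image _), fun x _ => ⟨x, rfl⟩, fun x _ => ?_⟩
    rw [image_univ]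
    exact TopologicalSpace.denseRange_denseSeq V x

theorem dense_A : Dense A := by
  intro f
  by_cases hf : f v ≠ 0
  · exact subset_closure hf
  · push Not at hf
    have hlim : Filter.Tendsto (fun t : ℝ => f + t • ContinuousLinearMap.fst ℝ ℝ ℝ) (𝓝[≠] 0)
        (𝓝 f) := by
      have h1 : Continuous (fun t : ℝ => f + t • ContinuousLinearMap.fst ℝ ℝ ℝ) := by fun_prop
      have h2 := h1.tendsto 0
      rw [zero_smul, add_zero] at h2
      exact h2.mono_left nhdsWithin_le_nhds
    refine mem_closure_of_tendsto hlim ?_
    filter_upwards [self_mem_nhdsWithin] with t ht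
    change (f + t • ContinuousLinearMap.fst ℝ ℝ ℝ) v ≠ 0
    have : (f + t • ContinuousLinearMap.fst ℝ ℝ ℝ) v = f v + t * 1 := rfl
    rw [this, hf, zero_add, mul_one]
    exact ht

theorem not_generator : ¬ IsProjectionalGenerator (⊤ : Submodule ℝ (StrongDual ℝ V)) Φ := by
  rintro ⟨-, -, h⟩
  have h1 := h A (fun f _ => Submodule.mem_top) ⟨⊤, by rw [dense_A.closure_eq]; rfl⟩
    (ContinuousLinearMap.snd ℝ ℝ ℝ) (fun f hf x hx => by
      have h2 : Φ f = range fun q : ℚ => (q : ℝ) • v := by
        rw [Φ, if_pos hf]
      rw [h2] at hx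
      obtain ⟨q, rfl⟩ := hx
      simp [v])
    (by
      have h3 : ContinuousLinearMap.snd ℝ ℝ ℝ ∈ closure A := dense_A _
      exact image_closure_subset_closure_image (NormedSpace.Dual.toWeakDual_continuous)
        (mem_image_of_mem _ h3))
  have h2 := congrArg (fun f : StrongDual ℝ V => f (0, 1)) h1
  simp at h2

/-- **Result.** There are a Banach space `X`, a projectional skeleton on `X` inducing a subspace `D`
of the dual, and choices of indices `s(x*)` and of countable dense subsets `Φ(x*)` of the spaces
`P_{s(x*)} X` such that `(D, Φ)` is not a projectional generator. -/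
theorem result : ∃ (X : Type) (_ : NormedAddCommGroup X) (_ : NormedSpace ℝ X)
    (_ : CompleteSpace X) (I : Type) (_ : PartialOrder I) (S : ProjSkeleton X I)
    (D : Submodule ℝ (StrongDual ℝ X)) (s : StrongDual ℝ X → I) (Ψ : StrongDual ℝ X → Set X),
    (D : Set (StrongDual ℝ X)) = S.induced ∧ IsRecipe S s Ψ ∧ ¬ IsProjectionalGenerator D Ψ :=
  ⟨V, inferInstance, inferInstance, inferInstance, Γ, inferInstance, S, ⊤, idx, Φ,
    by rw [induced_eq]; rfl, recipe, not_generator⟩

end Pool.Agent.Results.MP_2163b8_an.NotGenerator
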